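import Mathlib
import Pool.Agent.H447R2.ML.Spec
import Pool.Agent.H473R4.Count

set_option autoImplicit false

/-!
# Repunits: the asymptotic law for almost every pair (base, amplitude)

For real `α > 1`, `β > 0` and a prime `p` let `W α β p` be the `p`-rough part (the product, with
multiplicity, of the prime factors larger than `p`) of `⌊β α ^ p⌋`, and let `N α β n` be the number
of primes `p ≤ n` with `W α β p` prime.  For an integer `b ≥ 3` the point `(b, 1 / (b - 1))` gives
the base `b` repunits; at `(10, 1 / 9)` the count `N` is unbounded exactly when infinitely many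
decimal repunits are prime.  We prove that for Lebesgue almost every pair `(α, β)` with `α > 1` and
`β > 0` the limit `N α β n / log n → e ^ γ / log α` exists.
-/

namespace Pool.Agent.Results.MP_adea1b_nt.AlmostEveryPair

open Filter Topology MeasureTheory

/-- The product, with multiplicity, of the prime factors of `m` that are larger than `p`. -/
def roughPart (p m : ℕ) : ℕ := (m.primeFactorsList.filter (fun r => p < r)).prod

/-- The `p`-rough part of `⌊β α ^ p⌋`. -/
noncomputable def W (α β : ℝ) (p : ℕ) : ℕ := roughPart p ⌊β * α ^ p⌋₊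

/-- The number of primes `p ≤ n` for which `W α β p` is prime. -/
noncomputable def N (α β : ℝ) (n : ℕ) : ℕ :=
  ((Finset.range (n + 1)).filter (fun p => p.Prime ∧ (W α β p).Prime)).card

/-- The special points: the repunits in the integer bases `b ≥ 3`. -/
lemma W_int {b p : ℕ} (hb : 3 ≤ b) (hp : p.Prime) (hbp : ¬ p ∣ b - 1) :
    W b (1 / ((b : ℝ) - 1)) p = ∑ i ∈ Finset.range p, b ^ i := by
  have hpd : ¬ (p : ℤ) ∣ (b : ℤ) - 1 := by
    intro h
    apply hbp
    have : (b : ℤ) - 1 = ((b - 1 : ℕ) : ℤ) := by omega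
    rw [this] at h
    exact Int.natCast_dvd_natCast.1 h
  have hb3 : (3 : ℝ) ≤ b := by exact_mod_cast hb
  set R := ∑ i ∈ Finset.range p, b ^ i with hR
  have hgeo : (R : ℝ) * ((b : ℝ) - 1) = (b : ℝ) ^ p - 1 := by
    have h := Commute.geom_sum₂_mul (Commute.all (b : ℝ) 1) p
    simp only [one_pow, mul_one] at h
    rw [hR]
    push_cast
    exact h
  have hfl : ⌊1 / ((b : ℝ) - 1) * (b : ℝ) ^ p⌋₊ = R := by
    have hb1 : (0 : ℝ) < (b : ℝ) - 1 := by linarith
    rw [Nat.floor_eq_iff (by positivity)]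
    have e : 1 / ((b : ℝ) - 1) * (b : ℝ) ^ p = R + 1 / ((b : ℝ) - 1) := by
      field_simp
      linarith
    rw [e]
    have h1 : 0 < 1 / ((b : ℝ) - 1) := by positivity
    have h2 : 1 / ((b : ℝ) - 1) < 1 := by
      rw [div_lt_one hb1]
      linarith
    constructor <;> linarith
  have h := Pool.Agent.H447R2.ML.rough_quot (a := b) (b := 1) isCoprime_one_right (by omega)
    (by omega) hp hpd (x := (R : ℝ)) (by
      have hb1 : (b : ℝ) - 1 ≠ 0 := by linarith
      push_cast
      rw [one_pow]
      field_simp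
      linarith)
  rw [Nat.floor_natCast] at h
  simp only [one_pow, mul_one] at h
  have h2 : ((W b (1 / ((b : ℝ) - 1)) p : ℕ) : ℤ) = ((R : ℕ) : ℤ) := by
    unfold W
    rw [hfl]
    have h3 : roughPart p R = Pool.Agent.H305R2.roughPart p R := rfl
    rw [h3, h, hR]
    push_cast
    rfl
  exact_mod_cast h2

/-- A prime repunit has prime length. -/
lemma prime_length {n : ℕ} (h : (∑ i ∈ Finset.range n, 10 ^ i).Prime) : n.Prime := by
  have hgeo : ∀ m : ℕ, (∑ i ∈ Finset.range m, 10 ^ i) * 9 + 1 = 10 ^ m := by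
    intro m
    induction m with
    | zero => simp
    | succ k ih =>
      rw [Finset.sum_range_succ, pow_succ]
      omega
  by_contra hn
  have hn2 : 2 ≤ n := by
    by_contra h2
    interval_cases n <;> simp [Nat.not_prime_zero, Nat.not_prime_one] at h
  obtain ⟨d, hd1, hd2, hd3⟩ := Nat.exists_dvd_of_not_prime2 hn2 hn
  obtain ⟨k, rfl⟩ := hd1
  have hk : 2 ≤ k := by
    rcases k with _ | _ | k
    · omega
    · omega
    · omega
  have hdvd : (∑ i ∈ Finset.range d, 10 ^ i) ∣ ∑ i ∈ Finset.range (d * k), 10 ^ i := by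
    have h1 : 10 ^ d - 1 ∣ (10 ^ d) ^ k - 1 := by
      have := Nat.sub_dvd_pow_sub_pow (10 ^ d) 1 k
      simpa using this
    rw [← pow_mul] at h1
    have h2 := hgeo d
    have h3 := hgeo (d * k)
    have e1 : 10 ^ d - 1 = (∑ i ∈ Finset.range d, 10 ^ i) * 9 := by omega
    have e2 : 10 ^ (d * k) - 1 = (∑ i ∈ Finset.range (d * k), 10 ^ i) * 9 := by omega
    rw [e1, e2] at h1
    exact Nat.dvd_of_mul_dvd_mul_right (by norm_num) h1
  rcases (Nat.dvd_prime h).1 hdvd with h1 | h1
  · have h2 := hgeo d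
    rw [h1] at h2
    have h3 : 10 ^ 2 ≤ 10 ^ d := Nat.pow_le_pow_right (by norm_num) hd2
    omega
  · have h2 := hgeo d
    have h3 := hgeo (d * k)
    rw [h1] at h2
    have h4 : 10 ^ d = 10 ^ (d * k) := by omega
    have h5 : d = d * k := Nat.pow_right_injective (le_refl 10 |>.trans' (by norm_num)) h4
    nlinarith

/-- The repunits are the special values; the decimal repunit question in terms of `N`; for almost
every pair the limit exists and has the expected value. -/
theorem result :
    (∀ b p : ℕ, 3 ≤ b → p.Prime → ¬ p ∣ b - 1 →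
      W b (1 / ((b : ℝ) - 1)) p = ∑ i ∈ Finset.range p, b ^ i) ∧
    ({n : ℕ | (∑ i ∈ Finset.range n, 10 ^ i).Prime}.Infinite ↔
      Tendsto (N 10 (1 / 9)) atTop atTop) ∧
    (∀ᵐ z : ℝ × ℝ, 1 < z.1 → 0 < z.2 →
      Tendsto (fun n : ℕ => (N z.1 z.2 n : ℝ) / Real.log n) atTop
        (𝓝 (Real.exp Real.eulerMascheroniConstant / Real.log z.1))) := by
  refine ⟨fun b p hb hp hbp => W_int hb hp hbp, ?_, ?_⟩
  · have h1 := Pool.Agent.H473R4.tendsto_iff (fun p => W 10 (1 / 9) p)
      (fun p => (∑ i ∈ Finset.range p, 10 ^ i).Prime) 5 (fun p hp h5 => by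
        have h := W_int (b := 10) (by norm_num) hp (by
          intro h9
          have h2 : p ∣ 3 ^ 2 := by simpa using h9
          have h3 := Nat.le_of_dvd (by norm_num) (hp.dvd_of_dvd_pow h2)
          omega)
        have h3 : W 10 (1 / 9) p = W ((10 : ℕ) : ℝ) (1 / (((10 : ℕ) : ℝ) - 1)) p := by norm_num
        rw [h3, h])
    rw [show N 10 (1 / 9) = fun n => ((Finset.range (n + 1)).filter
      (fun p => p.Prime ∧ (W 10 (1 / 9) p).Prime)).card from rfl, ← h1]
    have : {n : ℕ | (∑ i ∈ Finset.range n, 10 ^ i).Prime} =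
        {p : ℕ | p.Prime ∧ (∑ i ∈ Finset.range p, 10 ^ i).Prime} := by
      ext n
      exact ⟨fun h => ⟨prime_length h, h⟩, fun h => h.2⟩
    rw [this]
  · have h := Pool.Agent.H447R2.ML.law (g := fun _ => 0) (κ := 1) (C := 1) le_rfl
      (by intro p; simp)
    filter_upwards [h] with z hz h1 h2
    refine (hz h1 h2).congr fun n => ?_
    unfold Pool.Agent.H447R2.ML.cnt N W
    simp only [add_zero]
    rfl

end Pool.Agent.Results.MP_adea1b_nt.AlmostEveryPair
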