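import Mathlib
import Pool.Agent.H447R2.ML.P9
import Pool.Agent.H447R2.ML.Spec
import Pool.Agent.H473R4.Count

set_option autoImplicit false

/-!
# Repunits in almost every real base

For a real base `x > 1` and a prime `p` let `W x p` be the `p`-rough part (the product, with
multiplicity, of the prime factors larger than `p`) of the integer part of the real repunit
`(x ^ p - 1) / (x - 1)`, and let `N x n` be the number of primes `p ≤ n` with `W x p` prime.  For
an integer `b ≥ 2` and a prime `p` not dividing `b - 1` the number `W b p` is the base `b` repunit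
of length `p` itself, and infinitely many decimal repunits are prime exactly when `N 10 n → ∞`.
We prove that for almost every real `x > 1` we have
`liminf N x n / log n ≤ e ^ γ / log x ≤ limsup N x n / log n`.
-/

namespace Pool.Agent.Results.MP_adea1b_nt.RealBase

open Filter Topology MeasureTheory

/-- The product, with multiplicity, of the prime factors of `m` that are larger than `p`. -/
def roughPart (p m : ℕ) : ℕ := (m.primeFactorsList.filter (fun r => p < r)).prod

/-- The `p`-rough part of the integer part of `(x ^ p - 1) / (x - 1)`. -/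
noncomputable def W (x : ℝ) (p : ℕ) : ℕ := roughPart p ⌊(x ^ p - 1) / (x - 1)⌋₊

/-- The number of primes `p ≤ n` for which `W x p` is prime. -/
noncomputable def N (x : ℝ) (n : ℕ) : ℕ :=
  ((Finset.range (n + 1)).filter (fun p => p.Prime ∧ (W x p).Prime)).card

/-- The special points: the integer bases. -/
lemma W_int {b p : ℕ} (hb : 2 ≤ b) (hp : p.Prime) (hbp : ¬ p ∣ b - 1) :
    W b p = ∑ i ∈ Finset.range p, b ^ i := by
  have hpd : ¬ (p : ℤ) ∣ (b : ℤ) - 1 := by
    intro h
    apply hbp
    have : (b : ℤ) - 1 = ((b - 1 : ℕ) : ℤ) := by omega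
    rw [this] at h
    exact Int.natCast_dvd_natCast.1 h
  have hb1 : ((b : ℤ) : ℝ) - ((1 : ℤ) : ℝ) ≠ 0 := by
    have : (2 : ℝ) ≤ b := by exact_mod_cast hb
    push_cast
    linarith
  have h := Pool.Agent.H447R2.ML.rough_quot (a := b) (b := 1) isCoprime_one_right (by omega)
    (by omega) hp hpd (x := ((b : ℝ) ^ p - 1) / ((b : ℝ) - 1)) (by
      push_cast at hb1 ⊢
      rw [one_pow]
      ring)
  simp only [one_pow, mul_one] at h
  have h2 : ((W b p : ℕ) : ℤ) = ((∑ i ∈ Finset.range p, b ^ i : ℕ) : ℤ) := by
    push_cast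
    exact h
  exact_mod_cast h2

/-- A prime repunit has prime length. -/
lemma prime_length {n : ℕ} (h : (∑ i ∈ Finset.range n, 10 ^ i).Prime) : n.Prime := by
  have hgeo : ∀ m : ℕ, (∑ i ∈ Finset.range m, 10 ^ i) * 9 + 1 = 10 ^ m := by
    intro m
    induction m with
    | zero => simp
    | succ k ih =>
      rw [Finset.sum_range_succ, pow_succ]
      omega
  by_contra hn
  have hn2 : 2 ≤ n := by
    by_contra h2
    interval_cases n <;> simp [Nat.not_prime_zero, Nat.not_prime_one] at h
  obtain ⟨d, hd1, hd2, hd3⟩ := Nat.exists_dvd_of_not_prime2 hn2 hn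
  obtain ⟨k, rfl⟩ := hd1
  have hk : 2 ≤ k := by
    rcases k with _ | _ | k
    · omega
    · omega
    · omega
  -- `R_d` divides `R_(d k)`
  have hdvd : (∑ i ∈ Finset.range d, 10 ^ i) ∣ ∑ i ∈ Finset.range (d * k), 10 ^ i := by
    have h1 : 10 ^ d - 1 ∣ (10 ^ d) ^ k - 1 := by
      have := Nat.sub_dvd_pow_sub_pow (10 ^ d) 1 k
      simpa using this
    rw [← pow_mul] at h1
    have h2 := hgeo d
    have h3 := hgeo (d * k)
    have e1 : 10 ^ d - 1 = (∑ i ∈ Finset.range d, 10 ^ i) * 9 := by omega
    have e2 : 10 ^ (d * k) - 1 = (∑ i ∈ Finset.range (d * k), 10 ^ i) * 9 := by omega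
    rw [e1, e2] at h1
    exact Nat.dvd_of_mul_dvd_mul_right (by norm_num) h1
  rcases (Nat.dvd_prime h).1 hdvd with h1 | h1
  · have h2 := hgeo d
    rw [h1] at h2
    have h3 : 10 ^ 2 ≤ 10 ^ d := Nat.pow_le_pow_right (by norm_num) hd2
    omega
  · have h2 := hgeo d
    have h3 := hgeo (d * k)
    rw [h1] at h2
    have h4 : 10 ^ d = 10 ^ (d * k) := by omega
    have h5 : d = d * k := Nat.pow_right_injective (le_refl 10 |>.trans' (by norm_num)) h4
    nlinarith

/-- The values of `W` at the integer bases; the decimal repunit question in terms of `N 10`; the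
almost everywhere statement. -/
theorem result :
    (∀ b p : ℕ, 2 ≤ b → p.Prime → ¬ p ∣ b - 1 → W b p = ∑ i ∈ Finset.range p, b ^ i) ∧
    ({n : ℕ | (∑ i ∈ Finset.range n, 10 ^ i).Prime}.Infinite ↔ Tendsto (N 10) atTop atTop) ∧
    (∀ᵐ x : ℝ, 1 < x →
      (∀ c : ℝ, c < Real.exp Real.eulerMascheroniConstant / Real.log x →
        ∃ᶠ n : ℕ in atTop, c * Real.log n < N x n) ∧
      (∀ c : ℝ, Real.exp Real.eulerMascheroniConstant / Real.log x < c →
        ∃ᶠ n : ℕ in atTop, (N x n : ℝ) < c * Real.log n)) := by
  refine ⟨fun b p hb hp hbp => W_int hb hp hbp, ?_, ?_⟩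
  · have h1 := Pool.Agent.H473R4.tendsto_iff (fun p => W 10 p)
      (fun p => (∑ i ∈ Finset.range p, 10 ^ i).Prime) 5 (fun p hp h5 => by
        have h := W_int (b := 10) (by norm_num) hp (by
          intro h9
          have h2 : p ∣ 3 ^ 2 := by simpa using h9
          have h3 := Nat.le_of_dvd (by norm_num) (hp.dvd_of_dvd_pow h2)
          omega)
        have h3 : W 10 p = W ((10 : ℕ) : ℝ) p := by norm_num
        rw [h3, h])
    rw [show N 10 = fun n => ((Finset.range (n + 1)).filter
      (fun p => p.Prime ∧ (W 10 p).Prime)).card from rfl, ← h1]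
    have : {n : ℕ | (∑ i ∈ Finset.range n, 10 ^ i).Prime} =
        {p : ℕ | p.Prime ∧ (∑ i ∈ Finset.range p, 10 ^ i).Prime} := by
      ext n
      exact ⟨fun h => ⟨prime_length h, h⟩, fun h => h.2⟩
    rw [this]
  · have h := Pool.Agent.H447R2.ML.one_param_val (val := fun p x => (x ^ p - 1) / (x - 1))
      (y' := fun p t => p * Real.exp (p * t) / (Real.exp (p * t) + (-1)) +
        (-(Real.exp t / (Real.exp t - 1))))
      (fun p => ((measurable_id.pow_const p).sub_const 1).div (measurable_id.sub_const 1))
      (fun p hp x hx => by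
        have : 1 < x ^ p := one_lt_pow₀ hx (by omega)
        exact div_pos (by linarith) (by linarith))
      (Pool.Agent.H447R2.ML.fam_of (ε := -1) (by norm_num)
        (H := fun t => -Real.log (Real.exp t - 1)) (H' := fun t => -(Real.exp t / (Real.exp t - 1)))
        (fun t ht => by
          have h1 : Real.exp t - 1 ≠ 0 := by
            have := Real.one_lt_exp_iff.2 ht
            linarith
          exact (((Real.hasDerivAt_exp t).sub_const 1).log h1).neg)
        (by
          refine ContinuousOn.neg (ContinuousOn.div Real.continuous_exp.continuousOn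
            (Real.continuous_exp.continuousOn.sub continuousOn_const) fun t ht => ?_)
          have := Real.one_lt_exp_iff.2 ht
          linarith)
        (fun p hp t ht => by
          have h1 := Real.one_lt_exp_iff.2 ht
          have h2 : 1 < Real.exp t ^ p := one_lt_pow₀ h1 (by omega)
          rw [Real.log_div (by linarith) (by linarith), Real.exp_nat_mul, ← sub_eq_add_neg,
            ← sub_eq_add_neg]))
    filter_upwards [h] with x hx h1
    exact hx h1

end Pool.Agent.Results.MP_adea1b_nt.RealBase
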